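import Pool.Agent.LH64.Idl

set_option autoImplicit false

/-!
# LH64/Band: the diagonal bands (STUB)

`K = 8 j + 2`, `z = K κ + h f0 < 2 h K`, `β = z / (80 h)`, groups `f0 / 80`.
-/

namespace Pool.LH64

open Pool.HB45 Pool.HM63 Pool.PH43 Pool.SC25 Pool.SC45

/-- the band -/
def bt (K h : ℕ) {n : ℕ} (κ f0 : Fin n → ℕ) (x : Fin n) : ℕ := (K * κ x + h * f0 x) / (80 * h)

/-- the box -/
def bx (K h : ℕ) {n : ℕ} (κ f0 : Fin n → ℕ) (x : Fin n) : ℕ × ℕ := (bt K h κ f0 x, f0 x / 80)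

theorem bt_mono {n h K : ℕ} {Q : Rel n} {κ f0 : Fin n → ℕ} (hκ : Lev h Q κ)
    (hf : ∀ a b, Q a b → f0 a ≤ f0 b) : ∀ a b, Q a b → bt K h κ f0 a ≤ bt K h κ f0 b := by
  intro a b hab
  unfold bt
  exact Nat.div_le_div_right (Nat.add_le_add (Nat.mul_le_mul_left _ (hκ.mono a b hab).le)
    (Nat.mul_le_mul_left _ (hf a b hab)))

/-- `K κ + h f0 < 2 h K = 2 h (8 j + 2) ≤ 80 h (j/5 + 1)` since `5 (j/5 + 1) ≥ j + 1` -/
theorem bt_le {n h j : ℕ} (hh : 1 ≤ h) {Q : Rel n} {κ f0 : Fin n → ℕ} (hκ : Lev h Q κ)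
    (hlt : ∀ a, f0 a < 8 * j + 2) : ∀ a, bt (8 * j + 2) h κ f0 a ≤ j / 5 := by
  intro a
  unfold bt
  have h1 := hκ.lt a
  have h2 := hlt a
  have h3 : (8 * j + 2) * κ a + (8 * j + 2) ≤ (8 * j + 2) * h := by
    have := Nat.mul_le_mul_left (8 * j + 2) (Nat.succ_le_of_lt h1)
    rwa [Nat.succ_eq_add_one, Nat.mul_add, Nat.mul_one] at this
  have h4 : h * f0 a + h ≤ h * (8 * j + 2) := by
    have := Nat.mul_le_mul_left h (Nat.succ_le_of_lt h2)
    rwa [Nat.succ_eq_add_one, Nat.mul_add, Nat.mul_one] at this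
  have h5 : j < 5 * (j / 5 + 1) := by omega
  have h6 : h * (16 * j + 16) ≤ h * (80 * (j / 5 + 1)) := Nat.mul_le_mul_left h (by omega)
  apply Nat.le_of_lt_succ
  rw [Nat.succ_eq_add_one, Nat.div_lt_iff_lt_mul (by positivity)]
  nlinarith

/-- same band, comparable: the groups differ by at most one, so same parity implies same group. PROOF.
`z b - z a < 80 h` and `z b - z a ≥ h (f0 b - f0 a)`, so `f0 b < f0 a + 80`. -/
theorem bx_eq {n h K : ℕ} (hh : 1 ≤ h) {Q : Rel n} {κ f0 : Fin n → ℕ} (hκ : Lev h Q κ)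
    (hf : ∀ a b, Q a b → f0 a ≤ f0 b) {a b : Fin n} (hab : Q a b)
    (hbt : bt K h κ f0 a = bt K h κ f0 b) (hpar : f0 a / 80 % 2 = f0 b / 80 % 2) :
    bx K h κ f0 a = bx K h κ f0 b := by
  unfold bx
  rw [Prod.mk.injEq]
  refine ⟨hbt, ?_⟩
  have h0 : 0 < 80 * h := by positivity
  unfold bt at hbt
  have h1 := hf a b hab
  have h2 : K * κ a ≤ K * κ b := Nat.mul_le_mul_left _ (hκ.mono a b hab).le
  have h3 : (K * κ b + h * f0 b) < ((K * κ b + h * f0 b) / (80 * h) + 1) * (80 * h) := by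
    have := Nat.lt_div_mul_add (a := K * κ b + h * f0 b) h0
    rw [Nat.add_mul, Nat.one_mul]
    exact this
  have h4 : (K * κ a + h * f0 a) / (80 * h) * (80 * h) ≤ K * κ a + h * f0 a :=
    Nat.div_mul_le_self _ _
  rw [← hbt, Nat.add_mul, Nat.one_mul] at h3
  have h5 : h * f0 b < h * (f0 a + 80) := by
    have h6 : h * (f0 a + 80) = h * f0 a + 80 * h := by ring
    rw [h6]
    omega
  have h7 : f0 b < f0 a + 80 := Nat.lt_of_mul_lt_mul_left h5
  omega

/-- number of multiples of `K` in `[A, A + v)` -/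
theorem card_mult {K A v : ℕ} (hK : 1 ≤ K) (S : Finset ℕ) (hS : ∀ k ∈ S, A ≤ K * k ∧ K * k < A + v) :
    S.card ≤ v / K + 1 := by
  classical
  rcases S.eq_empty_or_nonempty with rfl | hne
  · simp
  · have hsub : S ⊆ Finset.Icc (S.min' hne) (S.min' hne + v / K) := by
      intro k hk
      rw [Finset.mem_Icc]
      refine ⟨S.min'_le k hk, ?_⟩
      have h1 := (hS _ (S.min'_mem hne)).1
      have h2 := (hS k hk).2
      have h3 := S.min'_le k hk
      obtain ⟨d, hd⟩ := Nat.exists_eq_add_of_le h3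
      rw [hd, Nat.mul_add] at h2
      have h4 : d ≤ v / K := by
        rw [Nat.le_div_iff_mul_le hK, Nat.mul_comm]
        omega
      omega
    have h5 := Finset.card_le_card hsub
    rw [Nat.card_Icc] at h5
    refine h5.trans (le_of_eq ?_)
    rw [Nat.add_assoc, Nat.add_sub_cancel_left]

open Classical in
/-- BOX SIZE. At most 80 columns; in a column the letters have different levels `κ` (`hch`) with
`80 h b ≤ K κ + h f0 < 80 h (b + 1)`: at most `80 h / K + 1` (`card_mult`). -/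
theorem box_le {n h K : ℕ} (hh : 1 ≤ h) (hK : 1 ≤ K) {κ f0 : Fin n → ℕ}
    (hch : ∀ a b, f0 a = f0 b → κ a = κ b → a = b) (R : Finset (Fin n)) (k : ℕ × ℕ) :
    (R.filter fun x => bx K h κ f0 x = k).card ≤ 80 * (80 * h / K + 1) := by
  classical
  obtain ⟨b, k2⟩ := k
  obtain ⟨T, hT⟩ : ∃ T : Finset (Fin n), T = R.filter fun x => bx K h κ f0 x = (b, k2) := ⟨_, rfl⟩
  have hmem : ∀ x ∈ T, (K * κ x + h * f0 x) / (80 * h) = b ∧ f0 x / 80 = k2 := by
    intro x hx
    rw [hT, Finset.mem_filter] at hx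
    have h1 := hx.2
    unfold bx bt at h1
    rw [Prod.mk.injEq] at h1
    exact h1
  have h80 : 0 < 80 * h := by positivity
  have hfib : ∀ c ∈ T.image f0, (T.filter fun x => f0 x = c).card ≤ 80 * h / K + 1 := by
    intro c _
    have hinj : Set.InjOn κ (T.filter fun x => f0 x = c : Finset (Fin n)) := by
      intro x hx y hy hxy
      have h1 := (Finset.mem_filter.1 (Finset.mem_coe.1 hx)).2
      have h2 := (Finset.mem_filter.1 (Finset.mem_coe.1 hy)).2
      exact hch x y (h1.trans h2.symm) hxy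
    rw [← Finset.card_image_of_injOn hinj]
    apply card_mult (A := 80 * h * b - h * c) hK
    intro m hm
    obtain ⟨x, hx, rfl⟩ := Finset.mem_image.1 hm
    obtain ⟨hxT, hxc⟩ := Finset.mem_filter.1 hx
    obtain ⟨h1, -⟩ := hmem x hxT
    rw [hxc] at h1
    have h2 : 80 * h * b ≤ K * κ x + h * c := by
      have := Nat.mul_div_le (K * κ x + h * c) (80 * h)
      rw [h1] at this
      exact this
    have h3 : K * κ x + h * c < 80 * h * b + 80 * h := by
      have := Nat.lt_mul_div_succ (K * κ x + h * c) h80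
      rw [h1, Nat.mul_add, Nat.mul_one] at this
      exact this
    constructor <;> omega
  have h1 := Finset.card_le_mul_card_image T (80 * h / K + 1) hfib
  have h2 : (T.image f0).card ≤ 80 := by
    have hsub : T.image f0 ⊆ Finset.Ico (80 * k2) (80 * k2 + 80) := by
      intro c hc
      obtain ⟨x, hx, rfl⟩ := Finset.mem_image.1 hc
      have := (hmem x hx).2
      rw [Finset.mem_Ico]
      omega
    have := Finset.card_le_card hsub
    rw [Nat.card_Ico] at this
    omega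
  calc (R.filter fun x => bx K h κ f0 x = (b, k2)).card = T.card := by rw [hT]
    _ ≤ (80 * h / K + 1) * (T.image f0).card := h1
    _ ≤ (80 * h / K + 1) * 80 := Nat.mul_le_mul_left _ h2
    _ = 80 * (80 * h / K + 1) := Nat.mul_comm _ _

/-- BANDS. PROOF. `β = bt`, `R` = the letters with `f0 / 80` of the better parity (`2 #R ≥ n`), `card_TB_ge`, `prod_ge`. -/
theorem band {N h j : ℕ} (hh : 1 ≤ h) {Q : Rel (N + 1)} {κ lab : Fin (N + 1) → ℕ} (hTr : Tr Q)
    (hκ : Lev h Q κ) (hn : Nat' Q lab) (f0 : Fin (N + 1) → ℕ) (hf : ∀ a b, Q a b → f0 a ≤ f0 b)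
    (hlt : ∀ a, f0 a < 8 * j + 2) (hch : ∀ a b, f0 a = f0 b → κ a = κ b → a = b) :
    ∃ β : Fin (N + 1) → ℕ, (∀ a b, Q a b → β a ≤ β b) ∧ (∀ a, β a ≤ j / 5) ∧
      Real.exp (((N : ℝ) + 1) / (2 * XX h j) * Real.log (1 + XX h j)) ≤ (TB Q β).card := by
  classical
  refine ⟨bt (8 * j + 2) h κ f0, bt_mono hκ hf, bt_le hh hκ hlt, ?_⟩
  -- the better parity
  obtain ⟨π, R, hR, hcard⟩ : ∃ (π : ℕ) (R : Finset (Fin (N + 1))), (∀ x ∈ R, f0 x / 80 % 2 = π) ∧
      N + 1 ≤ 2 * R.card := by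
    have h1 := Finset.card_filter_add_card_filter_not (s := (Finset.univ : Finset (Fin (N + 1))))
      (fun x => f0 x / 80 % 2 = 0)
    rw [Finset.card_univ, Fintype.card_fin] at h1
    rcases le_total (Finset.univ.filter fun x : Fin (N + 1) => f0 x / 80 % 2 = 0).card
      (Finset.univ.filter fun x : Fin (N + 1) => ¬ f0 x / 80 % 2 = 0).card with h2 | h2
    · refine ⟨1, Finset.univ.filter fun x : Fin (N + 1) => ¬ f0 x / 80 % 2 = 0, fun x hx => ?_, by omega⟩
      have := (Finset.mem_filter.1 hx).2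
      omega
    · exact ⟨0, Finset.univ.filter fun x : Fin (N + 1) => f0 x / 80 % 2 = 0,
        fun x hx => (Finset.mem_filter.1 hx).2, by omega⟩
  have hX : 1 ≤ XX h j := Nat.mul_pos (by norm_num) (Nat.succ_pos _)
  have h1 := card_TB_ge hTr hn (bt (8 * j + 2) h κ f0) R (bx (8 * j + 2) h κ f0)
    (fun a ha b hb hab hbt => bx_eq hh hκ hf hab hbt (by rw [hR a ha, hR b hb]))
  have h2 := prod_ge (XX h j) hX R (bx (8 * j + 2) h κ f0)
    (fun k => by
      have h5 := box_le (K := 8 * j + 2) hh (by omega) hch R k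
      unfold XX
      convert h5)
  have h3 := (Nat.cast_le (α := ℝ)).2 h1
  refine le_trans ?_ (h2.trans h3)
  rw [Real.exp_le_exp]
  have hX' : (1 : ℝ) ≤ XX h j := by exact_mod_cast hX
  have hlog : 0 ≤ Real.log (1 + XX h j) := Real.log_nonneg (by linarith)
  refine mul_le_mul_of_nonneg_right ?_ hlog
  rw [div_le_div_iff₀ (by linarith) (by linarith)]
  have h4 : (N : ℝ) + 1 ≤ 2 * R.card := by exact_mod_cast hcard
  nlinarith

end Pool.LH64
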