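import Pool.Agent.LH64.Defs

set_option autoImplicit false

/-!
# LH64/Low: fat bands
-/

namespace Pool.LH64

open Pool.HB45 Pool.HM63 Pool.PH43 Pool.SC25 Pool.SC45

theorem mp_mono {n : ℕ} (Q : Rel n) {M M' : ℕ} (h : M ≤ M') : (Mp Q M).card ≤ (Mp Q M').card := by
  classical
  refine Finset.card_le_card_of_injOn (fun f i => Fin.castLE h (f i)) ?_ ?_
  · intro f hf
    rw [Finset.mem_coe, mem_Mp] at hf
    rw [Finset.mem_coe, mem_Mp]
    intro a b hab
    exact hf a b hab
  · intro f _ f' _ hff
    funext i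
    have h1 : Fin.castLE h (f i) = Fin.castLE h (f' i) := congrFun hff i
    exact Fin.castLE_injective h h1

/-- `(f, U) ↦ 2 (f + β) + 1_U`, injective because `β` is fixed; values `≤ 4 m + 1`. Order-preserving: same `β`: up-set;
different `β`: `β a + 1 ≤ β b`. -/
theorem low {n : ℕ} {Q : Rel n} (β : Fin n → ℕ) (hβ : ∀ a b, Q a b → β a ≤ β b) (m : ℕ)
    (hm : ∀ a, β a ≤ m) : (Mp Q (m + 1)).card * (TB Q β).card ≤ (Mp Q (4 * m + 2)).card := by
  classical
  rw [← Finset.card_product]
  refine Finset.card_le_card_of_injOn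
    (fun p i => ⟨2 * ((p.1 i).val + β i) + (if i ∈ p.2 then 1 else 0), ?_⟩) ?_ ?_
  · have h1 := (p.1 i).isLt
    have h2 := hm i
    split_ifs <;> omega
  · rintro ⟨f, U⟩ hp
    rw [Finset.mem_coe, Finset.mem_product, mem_Mp, mem_TB] at hp
    rw [Finset.mem_coe, mem_Mp]
    intro a b hab
    have h1 : (f a).val ≤ (f b).val := hp.1 a b hab
    have h2 := hβ a b hab
    have h3 := hp.2 a b hab
    rw [Fin.le_def]
    dsimp only
    by_cases hab' : β a = β b
    · have h4 := h3 hab'
      by_cases ha : a ∈ U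
      · rw [if_pos ha, if_pos (h4 ha)]
        omega
      · rw [if_neg ha]
        omega
    · split_ifs <;> omega
  · rintro ⟨f, U⟩ _ ⟨f', U'⟩ _ hff
    have h1 : ∀ i, 2 * ((f i).val + β i) + (if i ∈ U then 1 else 0) =
        2 * ((f' i).val + β i) + (if i ∈ U' then 1 else 0) := fun i => by
      have h2 := congrArg Fin.val (congrFun hff i)
      exact h2
    have h2 : ∀ i, (f i).val = (f' i).val ∧ (i ∈ U ↔ i ∈ U') := fun i => by
      have h3 := h1 i
      by_cases hi : i ∈ U
      · by_cases hi' : i ∈ U'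
        · rw [if_pos hi, if_pos hi'] at h3
          exact ⟨by omega, ⟨fun _ => hi', fun _ => hi⟩⟩
        · rw [if_pos hi, if_neg hi'] at h3
          omega
      · by_cases hi' : i ∈ U'
        · rw [if_neg hi, if_pos hi'] at h3
          omega
        · rw [if_neg hi, if_neg hi'] at h3
          exact ⟨by omega, ⟨fun h => absurd h hi, fun h => absurd h hi'⟩⟩
    refine Prod.ext ?_ ?_
    · funext i
      exact Fin.ext (h2 i).1
    · ext i
      exact (h2 i).2

end Pool.LH64
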