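import Pool.Agent.LH64.Defs

set_option autoImplicit false

/-!
# LH64/Num: numerics (proved, helper80)
-/

namespace Pool.LH64

private theorem num_logdiv {X Y : ℝ} (hX : 0 < X) (h : X ≤ Y) :
    X * Real.log (1 + Y) ≤ Y * Real.log (1 + X) := by
  have hY : 0 < Y := lt_of_lt_of_le hX h
  have h1 := rpow_one_add_le_one_add_mul_self (s := Y) (by linarith) (p := X / Y)
    (by positivity) ((div_le_one hY).2 h)
  have h2 : X / Y * Y = X := by field_simp
  rw [h2] at h1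
  have h3 := Real.log_le_log (by positivity) h1
  rw [Real.log_rpow (by linarith)] at h3
  calc X * Real.log (1 + Y) = Y * (X / Y * Real.log (1 + Y)) := by field_simp
    _ ≤ Y * Real.log (1 + X) := mul_le_mul_of_nonneg_left h3 hY.le

private theorem num_choose (n j : ℕ) (hj : 1 ≤ j) :
    ((n + 1 + j).choose (n + 1) : ℝ) ≤ (((n : ℝ) + 1 + j) / j) ^ j * Real.exp j := by
  have hj0 : (0 : ℝ) < j := by exact_mod_cast hj
  have h1 : (n + 1 + j).choose (n + 1) = (n + 1 + j).choose j := by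
    rw [← Nat.choose_symm_of_eq_add rfl]
  have h2 := Nat.choose_le_pow_div (α := ℝ) j (n + 1 + j)
  have h3 := Real.pow_div_factorial_le_exp (j : ℝ) hj0.le j
  have hf : (0 : ℝ) < (j.factorial : ℝ) := by exact_mod_cast Nat.factorial_pos j
  rw [h1]
  refine h2.trans ?_
  have h4 : (((n + 1 + j : ℕ) : ℝ)) ^ j / (j.factorial : ℝ) =
      (((n : ℝ) + 1 + j) / j) ^ j * ((j : ℝ) ^ j / (j.factorial : ℝ)) := by
    rw [div_pow]
    push_cast
    field_simp
  rw [h4]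
  exact mul_le_mul_of_nonneg_left h3 (by positivity)

/-- PROOF. `ρ = h/j ≥ 1/A`, `Λ = n/h ≥ L`, `n = Λ ρ j`. `XX ≤ 80 (10 ρ + 1)`, `x ↦ x / log (1 + x)` is increasing, so
`n/(2 XX) log (1 + XX) ≥ Λ j (ρ/(10 ρ + 1)) log (81 + 800 ρ) / 160 ≥ Λ j log (81 + 800 ρ) / (160 (10 + A))`.
LEFT SIDE: `K = 8 j + 2 ≤ 10 j`, `n/K ≤ Λ ρ/8`, `C(n + 1 + j, j) ≤ (e (n + 1 + j)/j)^j ≤ (e (Λ ρ + 2))^j`: the log is at most
`log 2 + 40 j log (1 + Λ ρ/8) + j + j log (Λ ρ + 2) ≤ j (2 + 41 (log (1 + Λ) + log (2 + ρ)))`, and `log (81 + 800 ρ) ≥ 4`. -/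
theorem num (A : ℕ) : ∃ L : ℕ, ∀ n h j : ℕ, 1 ≤ h → 1 ≤ j → L * h ≤ n → j ≤ A * h →
    2 * (((n : ℝ) + ((8 * j + 2 : ℕ) : ℝ)) / ((8 * j + 2 : ℕ) : ℝ)) ^ (4 * (8 * j + 2)) *
      ((n + 1 + j).choose (n + 1) : ℝ) ≤
    Real.exp ((n : ℝ) / (2 * XX h j) * Real.log (1 + XX h j)) := by
  set B : ℝ := 160 * (10 + (A : ℝ)) with hB
  have hA0 : (0 : ℝ) ≤ (A : ℝ) := Nat.cast_nonneg A
  have hB1 : 1600 ≤ B := by rw [hB]; linarith
  have hB0 : 0 < B := by linarith
  refine ⟨⌈2 * B * (42 + 11 * Real.log (22 * B)) + 1⌉₊, fun n h j hh hj hL hjA => ?_⟩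
  set L : ℕ := ⌈2 * B * (42 + 11 * Real.log (22 * B)) + 1⌉₊ with hLdef
  have hL1 : 2 * B * (42 + 11 * Real.log (22 * B)) + 1 ≤ (L : ℝ) := Nat.le_ceil _
  have hh0 : (0 : ℝ) < h := by exact_mod_cast hh
  have hj0 : (0 : ℝ) < j := by exact_mod_cast hj
  have hj1 : (1 : ℝ) ≤ j := by exact_mod_cast hj
  set ρ : ℝ := (h : ℝ) / j with hρ
  set Λ : ℝ := (n : ℝ) / h with hΛ
  have hρ0 : 0 < ρ := by positivity
  have hLΛ : (L : ℝ) ≤ Λ := by
    rw [hΛ, le_div_iff₀ hh0]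
    exact_mod_cast hL
  have hn : (n : ℝ) = Λ * ρ * j := by
    rw [hΛ, hρ]
    field_simp
  have hρA : 1 ≤ (A : ℝ) * ρ := by
    rw [hρ, ← mul_div_assoc, le_div_iff₀ hj0, one_mul]
    exact_mod_cast hjA
  have hlogB : 0 ≤ Real.log (22 * B) := Real.log_nonneg (by linarith)
  have hΛ0 : 0 < Λ := by
    have : 0 ≤ 2 * B * (42 + 11 * Real.log (22 * B)) := by positivity
    linarith
  -- the main numerical inequality
  have key : 42 + 11 * Real.log (1 + Λ) ≤ Λ / B := by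
    have h1 : Real.log ((1 + Λ) / (22 * B)) ≤ (1 + Λ) / (22 * B) - 1 :=
      Real.log_le_sub_one_of_pos (by positivity)
    rw [Real.log_div (by positivity) (by positivity)] at h1
    have h2 : 11 * ((1 + Λ) / (22 * B)) = (1 + Λ) / (2 * B) := by field_simp; ring
    have h3 : 42 + 11 * Real.log (22 * B) + 1 / (2 * B) ≤ Λ / (2 * B) := by
      rw [le_div_iff₀ (by positivity)]
      have : (42 + 11 * Real.log (22 * B) + 1 / (2 * B)) * (2 * B) =
          2 * B * (42 + 11 * Real.log (22 * B)) + 1 := by field_simp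
      rw [this]
      linarith
    have h4 : (1 + Λ) / (2 * B) = 1 / (2 * B) + Λ / (2 * B) := by ring
    have h5 : Λ / B = Λ / (2 * B) + Λ / (2 * B) := by field_simp; ring
    linarith
  -- the box size
  set X : ℝ := ((XX h j : ℕ) : ℝ) with hX
  set Y : ℝ := 80 * (10 * ρ + 1) with hY
  have hX80 : 80 ≤ X := by
    rw [hX]
    have : 80 * 1 ≤ XX h j := Nat.mul_le_mul_left 80 (Nat.le_add_left 1 _)
    exact_mod_cast this
  have hX0 : 0 < X := by linarith
  have hXY : X ≤ Y := by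
    have h1 : (((80 * h / (8 * j + 2) : ℕ)) : ℝ) ≤ ((80 * h : ℕ) : ℝ) / ((8 * j + 2 : ℕ) : ℝ) :=
      Nat.cast_div_le
    have h2 : ((80 * h : ℕ) : ℝ) / ((8 * j + 2 : ℕ) : ℝ) ≤ 10 * ρ := by
      rw [div_le_iff₀ (by positivity), hρ]
      push_cast
      have h3 : (h : ℝ) / j * j = h := by field_simp
      have h4 : 0 ≤ (h : ℝ) / j := by positivity
      have h5 : 10 * ((h : ℝ) / j) * (8 * j + 2) = 80 * ((h : ℝ) / j * j) + 20 * ((h : ℝ) / j) := by
        ring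
      rw [h5, h3]
      linarith
    have h6 : X = 80 * ((((80 * h / (8 * j + 2) : ℕ)) : ℝ) + 1) := by
      rw [hX]
      unfold XX
      push_cast
      rfl
    rw [h6, hY]
    linarith
  set M : ℝ := Real.log (1 + Y) with hM
  have hM4 : 4 ≤ M := by
    rw [hM, Real.le_log_iff_exp_le (by positivity)]
    have h1 : Real.exp 1 < 2.7182818286 := Real.exp_one_lt_d9
    have h2 : Real.exp 4 = Real.exp 1 ^ 4 := by
      rw [← Real.exp_nat_mul]
      norm_num
    rw [h2]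
    have h3 : Real.exp 1 ^ 4 ≤ 2.7182818286 ^ 4 :=
      pow_le_pow_left₀ (Real.exp_pos 1).le h1.le 4
    have h4 : (2.7182818286 : ℝ) ^ 4 ≤ 81 := by norm_num
    have h5 : 81 ≤ 1 + Y := by rw [hY]; linarith
    linarith
  have hR : Λ * j / B * M ≤ (n : ℝ) / (2 * X) * Real.log (1 + X) := by
    have h1 := num_logdiv hX0 hXY
    -- log (1+X) ≥ X / Y * M
    have hY0 : 0 < Y := by linarith
    have h2 : X / Y * M ≤ Real.log (1 + X) := by
      rw [div_mul_eq_mul_div, div_le_iff₀ hY0]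
      linarith
    have h3 : (n : ℝ) / (2 * X) * (X / Y * M) ≤ (n : ℝ) / (2 * X) * Real.log (1 + X) :=
      mul_le_mul_of_nonneg_left h2 (by positivity)
    refine le_trans ?_ h3
    have h4 : (n : ℝ) / (2 * X) * (X / Y * M) = (n : ℝ) / (2 * Y) * M := by field_simp
    rw [h4]
    refine mul_le_mul_of_nonneg_right ?_ (by linarith)
    rw [hn, div_le_div_iff₀ hB0 (by positivity), hY, hB]
    have h5 : 10 * ρ + 1 ≤ (10 + A) * ρ := by linarith
    have h6 : 0 ≤ Λ * j := by positivity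
    calc Λ * j * (2 * (80 * (10 * ρ + 1))) = 160 * (Λ * j * (10 * ρ + 1)) := by ring
      _ ≤ 160 * (Λ * j * ((10 + A) * ρ)) := by gcongr
      _ = Λ * ρ * j * (160 * (10 + A)) := by ring
  -- left side
  set T : ℝ := (1 + Λ) * (2 + ρ) with hT
  have hT1 : 1 ≤ T := by
    rw [hT]
    nlinarith [mul_pos hΛ0 hρ0]
  have hT0 : 0 < T := by linarith
  have hlogT : Real.log T = Real.log (1 + Λ) + Real.log (2 + ρ) := by
    rw [hT, Real.log_mul (by positivity) (by positivity)]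
  have e1 : ((n : ℝ) + ((8 * j + 2 : ℕ) : ℝ)) / ((8 * j + 2 : ℕ) : ℝ) ≤ T := by
    rw [div_le_iff₀ (by positivity)]
    push_cast
    rw [hn, hT]
    have h1 : 0 ≤ Λ * ρ * j := by positivity
    have h2 : 0 ≤ Λ * j := by positivity
    have h3 : 0 ≤ ρ * j := by positivity
    have h4 : 0 ≤ Λ * ρ := by positivity
    nlinarith
  have e2 : (((n : ℝ) + ((8 * j + 2 : ℕ) : ℝ)) / ((8 * j + 2 : ℕ) : ℝ)) ^ (4 * (8 * j + 2)) ≤
      T ^ (40 * j) :=
    (pow_le_pow_left₀ (by positivity) e1 _).trans (pow_le_pow_right₀ hT1 (by omega))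
  have e3 : ((n : ℝ) + 1 + j) / j ≤ T := by
    rw [div_le_iff₀ hj0, hn, hT]
    have h1 : 0 ≤ Λ * ρ * j := by positivity
    have h2 : 0 ≤ Λ * j := by positivity
    have h3 : 0 ≤ ρ * j := by positivity
    nlinarith
  have e4 : ((n + 1 + j).choose (n + 1) : ℝ) ≤ T ^ j * Real.exp j :=
    (num_choose n j hj).trans
      (mul_le_mul_of_nonneg_right (pow_le_pow_left₀ (by positivity) e3 _) (Real.exp_pos _).le)
  have e5 : 2 * (((n : ℝ) + ((8 * j + 2 : ℕ) : ℝ)) / ((8 * j + 2 : ℕ) : ℝ)) ^ (4 * (8 * j + 2)) *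
      ((n + 1 + j).choose (n + 1) : ℝ) ≤ 2 * T ^ (40 * j) * (T ^ j * Real.exp j) :=
    mul_le_mul (by linarith) e4 (by positivity) (by positivity)
  refine e5.trans ?_
  have e6 : 2 * T ^ (40 * j) * (T ^ j * Real.exp j) =
      Real.exp (Real.log 2 + ((41 * j : ℕ) : ℝ) * Real.log T + j) := by
    rw [Real.exp_add, Real.exp_add, Real.exp_log (by norm_num : (0 : ℝ) < 2), Real.exp_nat_mul,
      Real.exp_log hT0]
    have : 41 * j = 40 * j + j := by ring
    rw [this, pow_add]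
    ring
  rw [e6]
  refine Real.exp_le_exp.mpr (le_trans ?_ hR)
  have hl2 : Real.log 2 ≤ 1 := by
    have := Real.log_two_lt_d9
    linarith
  have hlρ : Real.log (2 + ρ) ≤ M := by
    rw [hM]
    refine Real.log_le_log (by positivity) ?_
    rw [hY]
    linarith
  have hlΛ : 0 ≤ Real.log (1 + Λ) := Real.log_nonneg (by linarith)
  have f1 : 2 + 41 * (Real.log (1 + Λ) + Real.log (2 + ρ)) ≤ (42 + 11 * Real.log (1 + Λ)) * M := by
    have g1 : 41 * Real.log (1 + Λ) ≤ 11 * Real.log (1 + Λ) * M := by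
      have : 11 * Real.log (1 + Λ) * 4 ≤ 11 * Real.log (1 + Λ) * M :=
        mul_le_mul_of_nonneg_left hM4 (by positivity)
      linarith
    linarith
  have f2 : (42 + 11 * Real.log (1 + Λ)) * M ≤ Λ / B * M :=
    mul_le_mul_of_nonneg_right key (by linarith)
  rw [hlogT]
  push_cast
  calc Real.log 2 + 41 * (j : ℝ) * (Real.log (1 + Λ) + Real.log (2 + ρ)) + j
      ≤ j * (2 + 41 * (Real.log (1 + Λ) + Real.log (2 + ρ))) := by
        nlinarith
    _ ≤ j * (Λ / B * M) := mul_le_mul_of_nonneg_left (f1.trans f2) hj0.le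
    _ = Λ * j / B * M := by ring

end Pool.LH64
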