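import Pool.Agent.LH64.Defs

set_option autoImplicit false

/-!
# LH64/OmWS: `Om(j) ≤ w_j * C(N + 2 + j, N + 2)` if `w_i ≤ w_j` for `i ≤ j`
-/

namespace Pool.LH64

open Pool.HB45 Pool.HM63 Pool.PH43 Pool.SC25 Pool.SC45

theorem om_le_wS {N j : ℕ} {Q : Rel (N + 1)} {lab : Fin (N + 1) → ℕ} (hn : Nat' Q lab)
    (hinc : ∀ i ≤ j, w Q lab i ≤ w Q lab j) :
    (Mp Q (j + 1)).card ≤ w Q lab j * (N + 2 + j).choose (N + 2) := by
  classical
  rw [om_card hn (j + 1)]
  have h1 : ∀ g ∈ LE Q, (j + 1 + N - des lab g).choose (N + 1) =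
      ∑ i ∈ Finset.range (j + 1), if des lab g = i then (j - i + (N + 1)).choose (N + 1) else 0 := by
    intro g _
    rw [Finset.sum_ite_eq]
    by_cases h : des lab g ≤ j
    · rw [if_pos (Finset.mem_range.2 (by omega))]
      congr 1
      omega
    · rw [if_neg (by rw [Finset.mem_range]; omega)]
      exact Nat.choose_eq_zero_of_lt (by omega)
  rw [Finset.sum_congr rfl h1, Finset.sum_comm]
  have h2 : ∀ i ∈ Finset.range (j + 1),
      (∑ g ∈ LE Q, if des lab g = i then (j - i + (N + 1)).choose (N + 1) else 0) ≤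
        w Q lab j * (j - i + (N + 1)).choose (N + 1) := by
    intro i hi
    rw [Finset.mem_range] at hi
    rw [← Finset.sum_filter, Finset.sum_const, smul_eq_mul]
    refine Nat.mul_le_mul_right _ ?_
    have h3 := hinc i (by omega)
    have h4 : ((LE Q).filter fun g => des lab g = i).card = w Q lab i := by
      unfold w
      congr!
    rw [h4]
    exact h3
  refine (Finset.sum_le_sum h2).trans ?_
  rw [← Finset.mul_sum]
  refine Nat.mul_le_mul_left _ ?_
  have h5 := Finset.sum_range_reflect (fun t => (t + (N + 1)).choose (N + 1)) (j + 1)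
  have h6 : ∀ i ∈ Finset.range (j + 1), (j - i + (N + 1)).choose (N + 1) =
      (j + 1 - 1 - i + (N + 1)).choose (N + 1) := by
    intro i _
    rw [Nat.add_sub_cancel]
  rw [Finset.sum_congr rfl h6, h5, Nat.sum_range_add_choose]
  apply le_of_eq
  congr 1
  omega

end Pool.LH64
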