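import Pool.Agent.LH64.Defs
import Pool.Agent.LH64.OmWS

set_option autoImplicit false

/-!
# LH64/OmW: `Om(j) ≤ w_j * C(N + 2 + j, N + 2)` if `w_i ≤ w_j` for `i ≤ j`
-/

namespace Pool.LH64

open Pool.HB45 Pool.HM63 Pool.PH43 Pool.SC25 Pool.SC45

/-- PROOF. `om_card` with `M = j + 1`: `#Mp = ∑_g C(j + 1 + N - des g, N + 1) = ∑_{i ≤ j} w_i C(j - i + N + 1, N + 1)
≤ w_j ∑_{t ≤ j} C(t + N + 1, N + 1) = w_j C(N + 2 + j, N + 2)` (hockey stick: `Nat.sum_range_add_choose`). -/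
theorem om_le_w {N j : ℕ} {Q : Rel (N + 1)} {lab : Fin (N + 1) → ℕ} (hn : Nat' Q lab)
    (hinc : ∀ i ≤ j, w Q lab i ≤ w Q lab j) :
    (Mp Q (j + 1)).card ≤ w Q lab j * (N + 2 + j).choose (N + 2) := by
  exact om_le_wS hn hinc

end Pool.LH64
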