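import Pool.Agent.LH64.Blk

set_option autoImplicit false

/-!
# LH64/UppS5: the arithmetic-geometric mean inequality for block sizes
-/

namespace Pool.LH64

open Pool.HB45 Pool.HM63 Pool.PH43 Pool.SC25 Pool.SC45

/-- block sizes add up to `N + 1`, and the product of `(size + 1)^4` is at most `((N + 1 + K)/K)^(4 K)` -/
theorem prod_size_le {N : ℕ} (f : Fin (N + 1) → ℕ) (K : ℕ) (hK0 : 1 ≤ K) (hK : ∀ x, f x < K) :
    ((∏ i ∈ Finset.range K, ((Finset.univ.filter fun x => f x = i).card + 1) ^ 4 : ℕ) : ℝ) ≤
      (((N : ℝ) + 1 + K) / K) ^ (4 * K) := by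
  classical
  have hsum : ∑ i ∈ Finset.range K, (Finset.univ.filter fun x => f x = i).card = N + 1 := by
    have h := Finset.card_eq_sum_card_fiberwise (f := f) (s := Finset.univ)
      (t := Finset.range K) (fun x _ => Finset.mem_coe.2 (Finset.mem_range.2 (hK x)))
    rw [Finset.card_univ, Fintype.card_fin] at h
    exact h.symm
  set μ : ℝ := ((N : ℝ) + 1 + K) / K with hμ
  have hKp : (0 : ℝ) < K := by exact_mod_cast hK0
  have hμp : 0 < μ := by positivity
  have h1 : ∏ i ∈ Finset.range K, (((Finset.univ.filter fun x => f x = i).card : ℝ) + 1) ≤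
      μ ^ K := by
    calc ∏ i ∈ Finset.range K, (((Finset.univ.filter fun x => f x = i).card : ℝ) + 1) ≤
        ∏ i ∈ Finset.range K, (μ * Real.exp
          ((((Finset.univ.filter fun x => f x = i).card : ℝ) + 1) / μ - 1)) := by
          refine Finset.prod_le_prod (fun i _ => by positivity) fun i _ => ?_
          have h2 := Real.add_one_le_exp
            ((((Finset.univ.filter fun x => f x = i).card : ℝ) + 1) / μ - 1)
          rw [sub_add_cancel, div_le_iff₀ hμp] at h2
          linarith
      _ = μ ^ K * Real.exp (∑ i ∈ Finset.range K,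
          ((((Finset.univ.filter fun x => f x = i).card : ℝ) + 1) / μ - 1)) := by
          rw [Finset.prod_mul_distrib, Finset.prod_const, Finset.card_range, Real.exp_sum]
      _ = μ ^ K := by
          have h3 : ∑ i ∈ Finset.range K,
              ((((Finset.univ.filter fun x => f x = i).card : ℝ) + 1) / μ - 1) = 0 := by
            rw [Finset.sum_sub_distrib, ← Finset.sum_div, Finset.sum_add_distrib,
              Finset.sum_const, Finset.card_range, nsmul_eq_mul, mul_one]
            have h4 : ∑ i ∈ Finset.range K, ((Finset.univ.filter fun x => f x = i).card : ℝ) =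
                (N : ℝ) + 1 := by exact_mod_cast hsum
            have h5 : ((N : ℝ) + 1 + K) / μ = K := by
              rw [hμ]
              field_simp
            rw [h4, h5, sub_self]
          rw [h3, Real.exp_zero, mul_one]
  push_cast
  rw [Finset.prod_pow, mul_comm 4 K, pow_mul]
  exact pow_le_pow_left₀ (Finset.prod_nonneg fun i _ => by positivity) h1 4

end Pool.LH64
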