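import Pool.Agent.LH64.Blk
import Pool.Agent.LH64.UppS5

set_option autoImplicit false

/-!
# LH64/Upp: upper bound for the number of words with few chain blocks (STUB)
-/

namespace Pool.LH64

open Pool.HB45 Pool.HM63 Pool.PH43 Pool.SC25 Pool.SC45

/-- the thresholds of `F` in the blocks of `g`: block `i`, value `≤ 5 c + s` where `c = y x` is constant on the block -/
noncomputable def thr {N : ℕ} (Q : Rel (N + 1)) (g : Equiv.Perm (Fin (N + 1)))
    (y F : Fin (N + 1) → ℕ) (i s : ℕ) : ℕ := by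
  classical
  exact (Finset.univ.filter fun x => fb Q g x = i ∧ F x ≤ 5 * y x + s).card

/-- block size -/
noncomputable def bsz {N : ℕ} (Q : Rel (N + 1)) (g : Equiv.Perm (Fin (N + 1))) (i : ℕ) : ℕ := by
  classical
  exact (Finset.univ.filter fun x => fb Q g x = i).card

theorem thr_le {N : ℕ} (Q : Rel (N + 1)) (g : Equiv.Perm (Fin (N + 1)))
    (y F : Fin (N + 1) → ℕ) (i s : ℕ) : thr Q g y F i s ≤ bsz Q g i := by
  classical
  unfold thr bsz
  refine Finset.card_le_card (fun x hx => ?_)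
  simp only [Finset.mem_filter, Finset.mem_univ, true_and] at hx ⊢
  exact hx.1

/-- one direction of the determination -/
theorem thr_inj_aux {N : ℕ} {Q : Rel (N + 1)} {g : Equiv.Perm (Fin (N + 1))}
    (y F F' : Fin (N + 1) → ℕ)
    (hF : ∀ a b, Q a b → F a ≤ F b) (hF' : ∀ a b, Q a b → F' a ≤ F' b)
    (hc : ∀ x x', fb Q g x = fb Q g x' → y x = y x')
    (x : Fin (N + 1)) (s : ℕ)
    (ht : thr Q g y F (fb Q g x) s = thr Q g y F' (fb Q g x) s)
    (hx : F x ≤ 5 * y x + s) : F' x ≤ 5 * y x + s := by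
  classical
  by_contra hcon
  push Not at hcon
  refine (Finset.card_lt_card (s := Finset.univ.filter fun z => fb Q g z = fb Q g x ∧
    F' z ≤ 5 * y z + s) (t := Finset.univ.filter fun z => fb Q g z = fb Q g x ∧
    F z ≤ 5 * y z + s) ?_).ne ?_
  · rw [Finset.ssubset_iff_subset_ne]
    constructor
    · intro z hz
      simp only [Finset.mem_filter, Finset.mem_univ, true_and] at hz ⊢
      refine ⟨hz.1, ?_⟩
      rcases Nat.le_total (pos g x) (pos g z) with h | h
      · exfalso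
        have h1 := blk_mono F' hF' hz.1.symm h
        have h2 := hc z x hz.1
        omega
      · have h1 := blk_mono F hF hz.1 h
        have h2 := hc z x hz.1
        omega
    · intro he
      have h1 : x ∈ Finset.univ.filter fun z => fb Q g z = fb Q g x ∧ F z ≤ 5 * y z + s := by
        simp only [Finset.mem_filter, Finset.mem_univ, true_and]
        exact hx
      rw [← he] at h1
      simp only [Finset.mem_filter, Finset.mem_univ, true_and] at h1
      omega
  · unfold thr at ht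
    convert ht.symm using 2

/-- DETERMINATION. `F`, `F'` order-preserving, `F x / 5 = F' x / 5 = y x`, `y` constant on the blocks of `g`; equal
thresholds for `s < 4` imply `F = F'`. PROOF. In block `i` both are monotone along the positions (`blk_mono`), so
`{x in block : F x ≤ 5 y x + s}` is the initial segment with `thr` letters; `5 y ≤ F ≤ 5 y + 4`. -/
theorem thr_inj {N : ℕ} {Q : Rel (N + 1)} {g : Equiv.Perm (Fin (N + 1))} (y F F' : Fin (N + 1) → ℕ)
    (hF : ∀ a b, Q a b → F a ≤ F b) (hF' : ∀ a b, Q a b → F' a ≤ F' b)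
    (hy : ∀ x, F x / 5 = y x) (hy' : ∀ x, F' x / 5 = y x)
    (hc : ∀ x x', fb Q g x = fb Q g x' → y x = y x')
    (ht : ∀ x : Fin (N + 1), ∀ s < 4, thr Q g y F (fb Q g x) s = thr Q g y F' (fb Q g x) s) :
    F = F' := by
  funext x
  have h1 : ∀ s < 4, F x ≤ 5 * y x + s → F' x ≤ 5 * y x + s := fun s hs =>
    thr_inj_aux y F F' hF hF' hc x s (ht x s hs)
  have h2 : ∀ s < 4, F' x ≤ 5 * y x + s → F x ≤ 5 * y x + s := fun s hs =>
    thr_inj_aux y F' F hF' hF hc x s (ht x s hs).symm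
  have e1 := hy x
  have e2 := hy' x
  have a0 := h1 0 (by norm_num)
  have a1 := h1 1 (by norm_num)
  have a2 := h1 2 (by norm_num)
  have a3 := h1 3 (by norm_num)
  have b0 := h2 0 (by norm_num)
  have b1 := h2 1 (by norm_num)
  have b2 := h2 2 (by norm_num)
  have b3 := h2 3 (by norm_num)
  omega

/-- ONE FIBRE. The words `g'` of `LE Q` with `fd g' / 5 = fd g / 5 =: y`: at most `∏_{i < K} (bsz i + 1)^4`
(`fd_inj`, `thr_inj`, `Finset.card_le_card_of_injOn` into `Fintype.piFinset`), `K > fb` everywhere. -/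
theorem fibre_le {N : ℕ} {Q : Rel (N + 1)} {lab : Fin (N + 1) → ℕ} (hn : Nat' Q lab)
    {g : Equiv.Perm (Fin (N + 1))} (hg : g ∈ LE Q) (K : ℕ) (hK : ∀ x, fb Q g x < K)
    (S : Finset (Equiv.Perm (Fin (N + 1)))) (hS : ∀ g' ∈ S, g' ∈ LE Q ∧
      ∀ x, fd lab g' x / 5 = fd lab g x / 5) :
    S.card ≤ ∏ i ∈ Finset.range K, (bsz Q g i + 1) ^ 4 := by
  classical
  have hcard : ∏ i ∈ Finset.range K, (bsz Q g i + 1) ^ 4 =
      (Fintype.piFinset fun i : Fin K => Fintype.piFinset fun _ : Fin 4 =>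
        Finset.range (bsz Q g i + 1)).card := by
    rw [Finset.prod_range, Fintype.card_piFinset]
    refine Finset.prod_congr rfl fun i _ => ?_
    rw [Fintype.card_piFinset, Finset.prod_const, Finset.card_range, Finset.card_univ,
      Fintype.card_fin]
  rw [hcard]
  refine Finset.card_le_card_of_injOn
    (fun g' (i : Fin K) (s : Fin 4) => thr Q g (fun x => fd lab g x / 5) (fd lab g') i s) ?_ ?_
  · intro g' _
    rw [Finset.mem_coe, Fintype.mem_piFinset]
    intro i
    rw [Fintype.mem_piFinset]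
    intro s
    exact Finset.mem_range.2 (Nat.lt_succ_of_le (thr_le Q g _ _ i s))
  · intro g1 h1 g2 h2 h12
    have e1 := hS g1 (Finset.mem_coe.1 h1)
    have e2 := hS g2 (Finset.mem_coe.1 h2)
    refine fd_inj hn.inj (thr_inj (Q := Q) (g := g) (fun x => fd lab g x / 5) _ _
      (fun a b hab => fd_mono lab g1 (pos_lt e1.1 hab).le)
      (fun a b hab => fd_mono lab g2 (pos_lt e2.1 hab).le) e1.2 e2.2 ?_ ?_)
    · intro x x' hxx
      show fd lab g x / 5 = fd lab g x' / 5
      rw [fd_of_fb hn g hxx]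
    · intro x s hs
      exact congrFun (congrFun h12 ⟨fb Q g x, hK x⟩) ⟨s, hs⟩

/-- AM-GM: `∑_{i < K} bsz i = N + 1`. PROOF. `x ≤ μ e^(x/μ - 1)` with `μ = (N + 1 + K)/K`. -/
theorem prod_bsz_le {N : ℕ} (Q : Rel (N + 1)) (g : Equiv.Perm (Fin (N + 1))) (K : ℕ) (hK0 : 1 ≤ K)
    (hK : ∀ x, fb Q g x < K) :
    ((∏ i ∈ Finset.range K, (bsz Q g i + 1) ^ 4 : ℕ) : ℝ) ≤
      (((N : ℝ) + 1 + K) / K) ^ (4 * K) := by
  exact prod_size_le (fun x => fb Q g x) K hK0 hK

/-- UPPER BOUND. `g ↦ fd g / 5` maps `Vj` to `Mp Q (j/5 + 1)`; fibres by `fibre_le` with a word of the fibre. -/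
theorem card_V_le {N : ℕ} {Q : Rel (N + 1)} {lab : Fin (N + 1) → ℕ} (hn : Nat' Q lab) (j : ℕ) :
    ((Vj Q lab j).card : ℝ) ≤ (Mp Q (j / 5 + 1)).card *
      (((N : ℝ) + 1 + ((8 * j + 2 : ℕ) : ℝ)) / ((8 * j + 2 : ℕ) : ℝ)) ^ (4 * (8 * j + 2)) := by
  classical
  set B : ℝ := (((N : ℝ) + 1 + ((8 * j + 2 : ℕ) : ℝ)) / ((8 * j + 2 : ℕ) : ℝ)) ^
    (4 * (8 * j + 2)) with hB
  have hB0 : 0 ≤ B := by positivity
  set φ : Equiv.Perm (Fin (N + 1)) → Fin (N + 1) → Fin (j / 5 + 1) :=
    fun g x => ⟨min (fd lab g x / 5) (j / 5), by omega⟩ with hφ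
  have hval : ∀ g ∈ Vj Q lab j, ∀ x, (φ g x).val = fd lab g x / 5 := by
    intro g hg x
    have h1 := (mem_Vj.mp hg).2.1
    have h2 := fd_le lab g x
    rw [h1] at h2
    have h3 : fd lab g x / 5 ≤ j / 5 := Nat.div_le_div_right h2
    simp only [hφ]
    exact min_eq_left h3
  have hmaps : ∀ g ∈ Vj Q lab j, φ g ∈ Mp Q (j / 5 + 1) := by
    intro g hg
    rw [mem_Mp]
    intro a b hab
    rw [Fin.le_def, hval g hg a, hval g hg b]
    exact Nat.div_le_div_right (fd_mono lab g (pos_lt (mem_Vj.mp hg).1 hab).le)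
  rw [Finset.card_eq_sum_card_fiberwise hmaps]
  push_cast
  rw [← nsmul_eq_mul]
  refine Finset.sum_le_card_nsmul _ _ _ fun f _ => ?_
  rcases Finset.eq_empty_or_nonempty ((Vj Q lab j).filter fun g => φ g = f) with h0 | ⟨g, hg⟩
  · rw [h0]
    simpa using hB0
  · have hgV := (Finset.mem_filter.mp hg).1
    have hgf := (Finset.mem_filter.mp hg).2
    have hK : ∀ x, fb Q g x < 8 * j + 2 := by
      intro x
      have h1 := fb_le Q g x
      have h2 := (mem_Vj.mp hgV).2.2
      omega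
    have h1 := fibre_le hn (mem_Vj.mp hgV).1 (8 * j + 2) hK
      ((Vj Q lab j).filter fun g => φ g = f) (fun g' hg' => by
        have hg'V := (Finset.mem_filter.mp hg').1
        have hg'f := (Finset.mem_filter.mp hg').2
        refine ⟨(mem_Vj.mp hg'V).1, fun x => ?_⟩
        rw [← hval g' hg'V x, ← hval g hgV x, hg'f, hgf])
    have h2 := prod_bsz_le Q g (8 * j + 2) (by omega) hK
    refine le_trans ?_ h2
    exact_mod_cast h1

end Pool.LH64
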