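import Pool.Agent.LH64.Dbl
import Pool.Agent.LH64.OmW
import Pool.Agent.LH64.Upp
import Pool.Agent.LH64.Low
import Pool.Agent.LH64.Band
import Pool.Agent.LH64.Num

set_option autoImplicit false

/-!
# LH64/Main: small `j` for posets of height `≤ c n`
-/

namespace Pool.LH64

open Pool.HB45 Pool.HM63 Pool.PH43 Pool.SC25 Pool.SC45

/-- SMALL `j`, LINEAR HEIGHTS. -/
theorem small_lin (A : ℕ) : ∃ L : ℕ, ∀ (N h j : ℕ) (Q : Rel (N + 1)) (κ lab : Fin (N + 1) → ℕ),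
    1 ≤ h → L * h ≤ N + 1 → Tr Q → Lev h Q κ → Nat' Q lab → j ≤ A * h →
    (∀ i ≤ j, w Q lab i ≤ w Q lab j) → w Q lab j ≤ w Q lab (j + 1) := by
  obtain ⟨L, hL⟩ := num A
  refine ⟨max L 2, fun N h j Q κ lab hh hLh hTr hκ hn hj hinc => ?_⟩
  have hL1 : L * h ≤ N + 1 := (Nat.mul_le_mul_right h (le_max_left L 2)).trans hLh
  have hL2 : 2 * h ≤ N + 1 := (Nat.mul_le_mul_right h (le_max_right L 2)).trans hLh
  rcases Nat.eq_zero_or_pos j with rfl | hj1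
  · exact small hh hκ hn (by omega)
  refine dbl hn ?_
  rcases (Vj Q lab j).eq_empty_or_nonempty with hV | ⟨g0, hg0⟩
  · rw [hV]
    simp
  obtain ⟨hg0L, -, hg0a⟩ := mem_Vj.1 hg0
  obtain ⟨β, hβ1, hβ2, hβ3⟩ := band (j := j) hh hTr hκ hn (fb Q g0)
    (fun a b hab => fb_mono Q g0 (pos_lt hg0L hab).le)
    (fun a => by
      have := fb_le Q g0 a
      omega)
    (fun a b hab hk => fb_chain hκ g0 hab hk)
  have h1 := low β hβ1 (j / 5) hβ2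
  have h2 : (Mp Q (4 * (j / 5) + 2)).card ≤ (Mp Q (j + 1)).card := mp_mono Q (by omega)
  have h3 := om_le_w hn hinc
  have h4 := card_V_le (lab := lab) hn j
  have h5 := hL (N + 1) h j hh hj1 hL1 hj
  have h6 : ((Mp Q (j / 5 + 1)).card : ℝ) * ((TB Q β).card : ℝ) ≤
      (w Q lab j : ℝ) * ((N + 2 + j).choose (N + 2) : ℝ) := by
    exact_mod_cast h1.trans (h2.trans h3)
  push_cast at h5
  set Y : ℝ := (((N : ℝ) + 1 + ((8 * j + 2 : ℕ) : ℝ)) / ((8 * j + 2 : ℕ) : ℝ)) ^ (4 * (8 * j + 2)) with hY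
  have hY' : (((N : ℝ) + 1 + (8 * (j : ℝ) + 2)) / (8 * (j : ℝ) + 2)) ^ (4 * (8 * j + 2)) = Y := by
    rw [hY]
    push_cast
    rfl
  rw [hY'] at h5
  have hC : ((N + 1 + 1 + j).choose (N + 1 + 1) : ℝ) = ((N + 2 + j).choose (N + 2) : ℝ) := rfl
  rw [hC] at h5
  have hC0 : (0 : ℝ) < ((N + 2 + j).choose (N + 2) : ℝ) := by
    exact_mod_cast Nat.choose_pos (by omega)
  have hM0 : (0 : ℝ) ≤ ((Mp Q (j / 5 + 1)).card : ℝ) := Nat.cast_nonneg _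
  have h7 : ((Mp Q (j / 5 + 1)).card : ℝ) * (2 * Y * ((N + 2 + j).choose (N + 2) : ℝ)) ≤
      (w Q lab j : ℝ) * ((N + 2 + j).choose (N + 2) : ℝ) :=
    (mul_le_mul_of_nonneg_left (h5.trans hβ3) hM0).trans h6
  have h8 : ((Mp Q (j / 5 + 1)).card : ℝ) * (2 * Y) ≤ (w Q lab j : ℝ) := by
    refine le_of_mul_le_mul_right ?_ hC0
    linarith
  have h9 : 2 * ((Vj Q lab j).card : ℝ) ≤ (w Q lab j : ℝ) := by
    linarith
  exact_mod_cast h9

end Pool.LH64
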