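import Pool.Agent.LH64.Defs

set_option autoImplicit false

/-!
# LH64/BlkA: chain blocks of a word (proofs of `blk_mono`, `blk_strict`, `fb_chain`, `fd_of_fb`)
-/

namespace Pool.LH64

open Pool.HB45 Pool.HM63 Pool.PH43 Pool.SC25 Pool.SC45

theorem blkA98_step {N : ℕ} {Q : Rel (N + 1)} {g : Equiv.Perm (Fin (N + 1))}
    {x y : Fin (N + 1)} (hxy : fb Q g x = fb Q g y) (hp : pos g x ≤ pos g y) (p : Fin N)
    (h1 : pos g x ≤ p.val) (h2 : p.val < pos g y) : Q (g p.castSucc) (g p.succ) := by
  classical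
  by_contra hc
  have hlt : (Finset.univ.filter fun p : Fin N =>
        p.val < pos g x ∧ ¬ Q (g p.castSucc) (g p.succ)).card <
      (Finset.univ.filter fun p : Fin N =>
        p.val < pos g y ∧ ¬ Q (g p.castSucc) (g p.succ)).card := by
    refine Finset.card_lt_card ((Finset.ssubset_iff_of_subset ?_).2 ⟨p, ?_, ?_⟩)
    · intro q hq
      simp only [Finset.mem_filter, Finset.mem_univ, true_and] at hq ⊢
      exact ⟨lt_of_lt_of_le hq.1 hp, hq.2⟩
    · simp only [Finset.mem_filter, Finset.mem_univ, true_and]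
      exact ⟨h2, hc⟩
    · simp only [Finset.mem_filter, Finset.mem_univ, true_and, not_and]
      intro h
      omega
  have e1 : fb Q g x = (Finset.univ.filter fun p : Fin N =>
        p.val < pos g x ∧ ¬ Q (g p.castSucc) (g p.succ)).card := by
    unfold fb
    congr
  have e2 : fb Q g y = (Finset.univ.filter fun p : Fin N =>
        p.val < pos g y ∧ ¬ Q (g p.castSucc) (g p.succ)).card := by
    unfold fb
    congr
  omega

theorem blkA98_pos_lt {N : ℕ} (g : Equiv.Perm (Fin (N + 1))) (x : Fin (N + 1)) :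
    pos g x < N + 1 := (g.symm x).isLt

theorem blkA98_at {N : ℕ} (g : Equiv.Perm (Fin (N + 1))) (x : Fin (N + 1)) (h : pos g x < N + 1) :
    g ⟨pos g x, h⟩ = x := by
  have : (⟨pos g x, h⟩ : Fin (N + 1)) = g.symm x := Fin.ext rfl
  rw [this]
  exact g.apply_symm_apply x

theorem blkA98_ind {N : ℕ} {Q : Rel (N + 1)} {g : Equiv.Perm (Fin (N + 1))}
    (F : Fin (N + 1) → ℕ) (c : ℕ) (hF : ∀ a b, Q a b → F a + c ≤ F b)
    {x y : Fin (N + 1)} (hxy : fb Q g x = fb Q g y) (hp : pos g x ≤ pos g y) (k : ℕ)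
    (hk : pos g x + k ≤ pos g y) (hk' : pos g x + k < N + 1) :
    F x + k * c ≤ F (g ⟨pos g x + k, hk'⟩) := by
  induction k with
  | zero =>
    have : g ⟨pos g x + 0, hk'⟩ = x := blkA98_at g x _
    rw [this]
    simp
  | succ k ih =>
    have h1 : pos g x + k < N + 1 := by omega
    have h2 := ih (by omega) h1
    have h3 : pos g x + k < N := by omega
    have h4 := blkA98_step hxy hp ⟨pos g x + k, h3⟩ (by simp) (by simp; omega)
    have h5 := hF _ _ h4
    have e1 : (⟨pos g x + k, h3⟩ : Fin N).castSucc = (⟨pos g x + k, h1⟩ : Fin (N + 1)) := Fin.ext rfl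
    have e2 : (⟨pos g x + k, h3⟩ : Fin N).succ = (⟨pos g x + (k + 1), hk'⟩ : Fin (N + 1)) :=
      Fin.ext (by simp; omega)
    rw [e1, e2] at h5
    have e3 : (k + 1) * c = k * c + c := by ring
    rw [e3]
    omega

theorem blkA98_gen {N : ℕ} {Q : Rel (N + 1)} {g : Equiv.Perm (Fin (N + 1))}
    (F : Fin (N + 1) → ℕ) (c : ℕ) (hF : ∀ a b, Q a b → F a + c ≤ F b)
    {x y : Fin (N + 1)} (hxy : fb Q g x = fb Q g y) (hp : pos g x ≤ pos g y) :
    F x + (pos g y - pos g x) * c ≤ F y := by
  have hy := blkA98_pos_lt g y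
  have h1 : pos g x + (pos g y - pos g x) < N + 1 := by omega
  have h2 := blkA98_ind F c hF hxy hp (pos g y - pos g x) (by omega) h1
  have e : g ⟨pos g x + (pos g y - pos g x), h1⟩ = y := by
    have e1 : (⟨pos g x + (pos g y - pos g x), h1⟩ : Fin (N + 1)) = ⟨pos g y, hy⟩ :=
      Fin.ext (by simp; omega)
    rw [e1]
    exact blkA98_at g y _
  rw [e] at h2
  exact h2

/-- inside a block the neighbours are comparable, so every order-preserving `F` is monotone there -/
theorem blkA98_mono {N : ℕ} {Q : Rel (N + 1)} {g : Equiv.Perm (Fin (N + 1))}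
    (F : Fin (N + 1) → ℕ)
    (hF : ∀ a b, Q a b → F a ≤ F b) {x y : Fin (N + 1)} (hxy : fb Q g x = fb Q g y)
    (hp : pos g x ≤ pos g y) : F x ≤ F y := by
  have := blkA98_gen F 0 (by simpa using hF) hxy hp
  simpa using this

/-- strict version -/
theorem blkA98_strict {N : ℕ} {Q : Rel (N + 1)} {g : Equiv.Perm (Fin (N + 1))}
    (F : Fin (N + 1) → ℕ)
    (hF : ∀ a b, Q a b → F a < F b) {x y : Fin (N + 1)} (hxy : fb Q g x = fb Q g y)
    (hp : pos g x < pos g y) : F x < F y := by
  have := blkA98_gen F 1 (fun a b h => hF a b h) hxy hp.le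
  rw [mul_one] at this
  omega

theorem blkA98_inj {N : ℕ} (g : Equiv.Perm (Fin (N + 1))) {x y : Fin (N + 1)}
    (h : pos g x = pos g y) : x = y :=
  g.symm.injective (Fin.ext h)

/-- a block meets every level at most once -/
theorem blkA98_chain {N h : ℕ} {Q : Rel (N + 1)} {κ : Fin (N + 1) → ℕ} (hκ : Lev h Q κ)
    (g : Equiv.Perm (Fin (N + 1))) {x y : Fin (N + 1)} (hxy : fb Q g x = fb Q g y)
    (hk : κ x = κ y) : x = y := by
  rcases lt_trichotomy (pos g x) (pos g y) with h1 | h1 | h1
  · have := blkA98_strict κ hκ.mono hxy h1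
    omega
  · exact blkA98_inj g h1
  · have := blkA98_strict κ hκ.mono hxy.symm h1
    omega

/-- comparable neighbours are not descents: a block is contained in a run -/
theorem blkA98_fd {N : ℕ} {Q : Rel (N + 1)} {lab : Fin (N + 1) → ℕ} (hn : Nat' Q lab)
    (g : Equiv.Perm (Fin (N + 1))) {x y : Fin (N + 1)} (hxy : fb Q g x = fb Q g y) :
    fd lab g x = fd lab g y := by
  have key : ∀ {x y : Fin (N + 1)}, fb Q g x = fb Q g y → pos g x ≤ pos g y →
      fd lab g x = fd lab g y := by
    intro x y hxy hp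
    unfold fd
    congr 1
    ext p
    simp only [Finset.mem_filter, Finset.mem_univ, true_and]
    constructor
    · rintro ⟨h1, h2⟩
      exact ⟨by omega, h2⟩
    · rintro ⟨h1, h2⟩
      refine ⟨?_, h2⟩
      by_contra h3
      have h4 := blkA98_step hxy hp p (by omega) h1
      have h5 := hn.mono _ _ h4
      omega
  rcases le_total (pos g x) (pos g y) with h1 | h1
  · exact key hxy h1
  · exact (key hxy.symm h1).symm

end Pool.LH64
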