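import Pool.Agent.LH64.Defs

set_option autoImplicit false

/-!
# LH64/BlkInj: the word is determined by `fd`
-/

namespace Pool.LH64

open Pool.HB45 Pool.HM63 Pool.PH43 Pool.SC25 Pool.SC45

theorem BlkInj_pos {N : ℕ} (g : Equiv.Perm (Fin (N + 1))) (i : Fin (N + 1)) :
    pos g (g i) = i.val := by
  rw [pos, Equiv.symm_apply_apply]

theorem BlkInj_sm {N : ℕ} {lab : Fin (N + 1) → ℕ} (hinj : Function.Injective lab)
    (g : Equiv.Perm (Fin (N + 1))) :
    StrictMono fun i => toLex (fd lab g (g i), lab (g i)) := by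
  rw [Fin.strictMono_iff_lt_succ]
  intro i
  rw [Prod.Lex.toLex_lt_toLex]
  have hsub : (Finset.univ.filter fun p : Fin N => p.val < pos g (g i.castSucc) ∧
      lab (g p.succ) < lab (g p.castSucc)) ⊆
      (Finset.univ.filter fun p : Fin N => p.val < pos g (g i.succ) ∧
      lab (g p.succ) < lab (g p.castSucc)) := by
    intro p hp
    simp only [Finset.mem_filter, Finset.mem_univ, true_and, BlkInj_pos, Fin.val_castSucc,
      Fin.val_succ] at hp ⊢
    exact ⟨by omega, hp.2⟩
  rcases lt_trichotomy (lab (g i.castSucc)) (lab (g i.succ)) with h | h | h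
  · rcases lt_or_eq_of_le (Finset.card_le_card hsub) with h1 | h1
    · exact Or.inl h1
    · exact Or.inr ⟨h1, h⟩
  · exact absurd (g.injective (hinj h)) (Fin.castSucc_lt_succ).ne
  · left
    refine Finset.card_lt_card ⟨hsub, fun hs => ?_⟩
    have h1 : i ∈ (Finset.univ.filter fun p : Fin N => p.val < pos g (g i.castSucc) ∧
        lab (g p.succ) < lab (g p.castSucc)) := by
      apply hs
      simp only [Finset.mem_filter, Finset.mem_univ, true_and, BlkInj_pos, Fin.val_succ]
      exact ⟨by omega, h⟩
    simp only [Finset.mem_filter, Finset.mem_univ, true_and, BlkInj_pos, Fin.val_castSucc] at h1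
    omega

/-- the word is determined by `fd` -/
theorem fd_injA {N : ℕ} {lab : Fin (N + 1) → ℕ} (hinj : Function.Injective lab)
    {g g' : Equiv.Perm (Fin (N + 1))} (h : fd lab g = fd lab g') : g = g' := by
  have h1 := wd_unique (lab := lab) (fd lab g) g (BlkInj_sm hinj g)
  have h2 := wd_unique (lab := lab) (fd lab g') g' (BlkInj_sm hinj g')
  rw [← h1, ← h2, h]

end Pool.LH64
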