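import Pool.Agent.LH64.Defs
import Pool.Agent.LH64.BlkA
import Pool.Agent.LH64.BlkInj

set_option autoImplicit false

/-!
# LH64/Blk: runs and chain blocks of a word (STUB)
-/

namespace Pool.LH64

open Pool.HB45 Pool.HM63 Pool.PH43 Pool.SC25 Pool.SC45

/-- `mem_LE` with `i = g.symm a`, `j = g.symm b` -/
theorem pos_lt {N : ℕ} {Q : Rel (N + 1)} {g : Equiv.Perm (Fin (N + 1))} (hg : g ∈ LE Q)
    {a b : Fin (N + 1)} (hab : Q a b) : pos g a < pos g b := by
  have h := mem_LE.1 hg (g.symm a) (g.symm b) (by simpa using hab)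
  exact h

/-- `fd` depends on the position only -/
theorem fd_mono {N : ℕ} (lab : Fin (N + 1) → ℕ) (g : Equiv.Perm (Fin (N + 1)))
    {a b : Fin (N + 1)} (hab : pos g a ≤ pos g b) : fd lab g a ≤ fd lab g b := by
  unfold fd
  apply Finset.card_le_card
  intro p hp
  rw [Finset.mem_filter] at hp ⊢
  exact ⟨hp.1, hp.2.1.trans_le hab, hp.2.2⟩

theorem fb_mono {N : ℕ} (Q : Rel (N + 1)) (g : Equiv.Perm (Fin (N + 1)))
    {a b : Fin (N + 1)} (hab : pos g a ≤ pos g b) : fb Q g a ≤ fb Q g b := by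
  classical
  unfold fb
  apply Finset.card_le_card
  intro p hp
  rw [Finset.mem_filter] at hp ⊢
  exact ⟨hp.1, hp.2.1.trans_le hab, hp.2.2⟩

theorem fd_le {N : ℕ} (lab : Fin (N + 1) → ℕ) (g : Equiv.Perm (Fin (N + 1))) (x : Fin (N + 1)) :
    fd lab g x ≤ des lab g := by
  unfold fd des
  apply Finset.card_le_card
  intro p hp
  rw [Finset.mem_filter] at hp ⊢
  exact ⟨hp.1, hp.2.2⟩

theorem fb_le {N : ℕ} (Q : Rel (N + 1)) (g : Equiv.Perm (Fin (N + 1))) (x : Fin (N + 1)) :
    fb Q g x + adj Q g ≤ N := by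
  classical
  have h1 : fb Q g x ≤ (Finset.univ.filter fun p : Fin N => ¬ Q (g p.castSucc) (g p.succ)).card := by
    unfold fb
    apply Finset.card_le_card
    intro p hp
    rw [Finset.mem_filter] at hp ⊢
    exact ⟨hp.1, hp.2.2⟩
  have h2 : adj Q g = (Finset.univ.filter fun p : Fin N => Q (g p.castSucc) (g p.succ)).card := by
    unfold adj adjs
    congr 1
  have h3 := Finset.card_filter_add_card_filter_not (s := (Finset.univ : Finset (Fin N)))
    (fun p : Fin N => Q (g p.castSucc) (g p.succ))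
  rw [Finset.card_univ, Fintype.card_fin] at h3
  omega

/-- inside a block the neighbours are comparable, so every order-preserving `F` is monotone there.
PROOF. `fb` constant between the positions of `x` and `y`, induction on the position. -/
theorem blk_mono {N : ℕ} {Q : Rel (N + 1)} {g : Equiv.Perm (Fin (N + 1))} (F : Fin (N + 1) → ℕ)
    (hF : ∀ a b, Q a b → F a ≤ F b) {x y : Fin (N + 1)} (hxy : fb Q g x = fb Q g y)
    (hp : pos g x ≤ pos g y) : F x ≤ F y := blkA98_mono F hF hxy hp

/-- strict version -/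
theorem blk_strict {N : ℕ} {Q : Rel (N + 1)} {g : Equiv.Perm (Fin (N + 1))} (F : Fin (N + 1) → ℕ)
    (hF : ∀ a b, Q a b → F a < F b) {x y : Fin (N + 1)} (hxy : fb Q g x = fb Q g y)
    (hp : pos g x < pos g y) : F x < F y := blkA98_strict F hF hxy hp

/-- a block meets every level at most once (`blk_strict` with `κ`) -/
theorem fb_chain {N h : ℕ} {Q : Rel (N + 1)} {κ : Fin (N + 1) → ℕ} (hκ : Lev h Q κ)
    (g : Equiv.Perm (Fin (N + 1))) {x y : Fin (N + 1)} (hxy : fb Q g x = fb Q g y)
    (hk : κ x = κ y) : x = y := blkA98_chain hκ g hxy hk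

/-- comparable neighbours are not descents: a block is contained in a run -/
theorem fd_of_fb {N : ℕ} {Q : Rel (N + 1)} {lab : Fin (N + 1) → ℕ} (hn : Nat' Q lab)
    (g : Equiv.Perm (Fin (N + 1))) {x y : Fin (N + 1)} (hxy : fb Q g x = fb Q g y) :
    fd lab g x = fd lab g y := blkA98_fd hn g hxy

/-- the word is determined by `fd` (`wd_unique` of SC25/FundW: the letters are sorted by `(fd, lab)`) -/
theorem fd_inj {N : ℕ} {lab : Fin (N + 1) → ℕ} (hinj : Function.Injective lab)
    {g g' : Equiv.Perm (Fin (N + 1))} (h : fd lab g = fd lab g') : g = g' := by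
  exact fd_injA hinj h

end Pool.LH64
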