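import Pool.Agent.LH64.Defs

set_option autoImplicit false

/-!
# LH64/Dbl: double counting of the swaps
-/

namespace Pool.LH64

open Pool.HB45 Pool.HM63 Pool.PH43 Pool.SC25 Pool.SC45

/-- as `PH43.le_card_Up`: the positions outside `Up` are comparable or have a descent at `p - 1, p, p + 1` -/
theorem le_card_Up2 {N : ℕ} (Q : Rel (N + 1)) (lab : Fin (N + 1) → ℕ)
    (g : Equiv.Perm (Fin (N + 1))) : N ≤ (Up Q lab g).card + 3 * des lab g + adj Q g := by
  classical
  set SA := (Finset.univ : Finset (Fin N)).filter fun p => ∃ q ∈ DS lab g, q.val = p.val with hSA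
  set SB := (Finset.univ : Finset (Fin N)).filter fun p => ∃ q ∈ DS lab g, q.val + 1 = p.val with hSB
  set SC := (Finset.univ : Finset (Fin N)).filter fun p => ∃ q ∈ DS lab g, q.val = p.val + 1 with hSC
  have hA : SA.card ≤ des lab g := by
    rw [← card_DS]
    refine Finset.card_le_card_of_injOn id ?_ (fun a _ b _ h => h)
    intro p hp
    obtain ⟨-, q, hq, h⟩ := Finset.mem_filter.1 (Finset.mem_coe.1 hp)
    have : q = p := Fin.ext h
    subst this
    exact hq
  have hB : SB.card ≤ des lab g := by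
    rw [← card_DS]
    refine Finset.card_le_card_of_injOn (fun p => ⟨p.val - 1, by have := p.isLt; omega⟩) ?_ ?_
    · intro p hp
      obtain ⟨-, q, hq, h⟩ := Finset.mem_filter.1 (Finset.mem_coe.1 hp)
      have : (⟨p.val - 1, by have := p.isLt; omega⟩ : Fin N) = q := Fin.ext (by simp; omega)
      simp only [Finset.mem_coe]
      rw [this]
      exact hq
    · intro a ha b hb hab
      obtain ⟨-, q, hq, h⟩ := Finset.mem_filter.1 (Finset.mem_coe.1 ha)
      obtain ⟨-, q', hq', h'⟩ := Finset.mem_filter.1 (Finset.mem_coe.1 hb)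
      simp only [Fin.mk.injEq] at hab
      apply Fin.ext
      omega
  have hC : SC.card ≤ des lab g := by
    rw [← card_DS]
    have hex : ∀ p ∈ SC, ∃ q ∈ DS lab g, q.val = p.val + 1 := fun p hp =>
      (Finset.mem_filter.1 hp).2
    choose! f hf1 hf2 using hex
    refine Finset.card_le_card_of_injOn f (fun p hp => hf1 p hp) ?_
    intro a ha b hb hab
    have h1 := hf2 a (Finset.mem_coe.1 ha)
    have h2 := hf2 b (Finset.mem_coe.1 hb)
    rw [hab] at h1
    apply Fin.ext
    omega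
  have hcov : (Finset.univ : Finset (Fin N)) ⊆ Up Q lab g ∪ (((SA ∪ SB) ∪ SC) ∪ adjs Q g) := by
    intro p _
    by_cases hQ : Q (g p.castSucc) (g p.succ)
    · refine Finset.mem_union_right _ (Finset.mem_union_right _ ?_)
      unfold adjs
      exact Finset.mem_filter.2 ⟨Finset.mem_univ _, hQ⟩
    by_cases hU : p ∈ Up Q lab g
    · exact Finset.mem_union_left _ hU
    · rw [mem_Up] at hU
      push Not at hU
      obtain ⟨q, hq1, hq2⟩ := hU hQ
      refine Finset.mem_union_right _ (Finset.mem_union_left _ ?_)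
      rcases hq1 with h | h | h
      · exact Finset.mem_union_left _ (Finset.mem_union_left _
          (Finset.mem_filter.2 ⟨Finset.mem_univ _, q, hq2, h⟩))
      · exact Finset.mem_union_left _ (Finset.mem_union_right _
          (Finset.mem_filter.2 ⟨Finset.mem_univ _, q, hq2, h⟩))
      · exact Finset.mem_union_right _ (Finset.mem_filter.2 ⟨Finset.mem_univ _, q, hq2, h⟩)
  have h0 := Finset.card_le_card hcov
  rw [Finset.card_univ, Fintype.card_fin] at h0
  have h1 := Finset.card_union_le (Up Q lab g) (((SA ∪ SB) ∪ SC) ∪ adjs Q g)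
  have h2 := Finset.card_union_le ((SA ∪ SB) ∪ SC) (adjs Q g)
  have h3 := Finset.card_union_le (SA ∪ SB) SC
  have h4 := Finset.card_union_le SA SB
  have h5 : (adjs Q g).card = adj Q g := rfl
  omega

/-- PROOF. As `PH43.w_le_of_Up`: `∑_{des g = j} #Up g ≤ (j + 1) w_(j+1)`; words outside `Vj` have
`#Up ≥ N - 3 j - adj ≥ 5 j + 2 ≥ 2 (j + 1)`. -/
theorem dbl {N j : ℕ} {Q : Rel (N + 1)} {lab : Fin (N + 1) → ℕ} (hn : Nat' Q lab)
    (hV : 2 * (Vj Q lab j).card ≤ w Q lab j) : w Q lab j ≤ w Q lab (j + 1) := by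
  classical
  obtain ⟨s, hs, hws⟩ := mem_w Q lab j
  obtain ⟨t, ht, hwt⟩ := mem_w Q lab (j + 1)
  have hVs : Vj Q lab j ⊆ s := by
    intro g hg
    obtain ⟨h1, h2, -⟩ := mem_Vj.1 hg
    exact (hs g).2 ⟨h1, h2⟩
  have h0 : (s \ Vj Q lab j).card + (Vj Q lab j).card = s.card :=
    Finset.card_sdiff_add_card_eq_card hVs
  have h1 : (s \ Vj Q lab j).card * (2 * (j + 1)) ≤
      ((s \ Vj Q lab j).sigma fun g => Up Q lab g).card := by
    rw [Finset.card_sigma, ← smul_eq_mul]
    refine Finset.card_nsmul_le_sum _ _ _ fun g hg => ?_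
    obtain ⟨hg0, hg3⟩ := Finset.mem_sdiff.1 hg
    obtain ⟨hg1, hg2⟩ := (hs g).1 hg0
    have h2 := le_card_Up2 Q lab g
    have h3 : ¬ N ≤ adj Q g + (8 * j + 1) := fun h => hg3 (mem_Vj.2 ⟨hg1, hg2, h⟩)
    rw [hg2] at h2
    omega
  have h2 : (t.sigma fun g => DS lab g).card = t.card * (j + 1) := by
    rw [Finset.card_sigma, Finset.sum_congr rfl (fun g hg => by
      rw [card_DS, ((ht g).1 hg).2]), Finset.sum_const, smul_eq_mul]
  have h3 : ((s \ Vj Q lab j).sigma fun g => Up Q lab g).card ≤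
      (t.sigma fun g => DS lab g).card := by
    refine Finset.card_le_card_of_injOn (fun x => ⟨sw x.1 x.2, x.2⟩) ?_ ?_
    · rintro ⟨g, p⟩ hx
      rw [Finset.mem_coe, Finset.mem_sigma] at hx
      obtain ⟨hg, hp⟩ := hx
      obtain ⟨hg1, hg2⟩ := (hs g).1 (Finset.mem_sdiff.1 hg).1
      have h4 := DS_sw hn hp
      have h5 : p ∉ DS lab g := (mem_Up.1 hp).2 p (Or.inl rfl)
      rw [Finset.mem_coe, Finset.mem_sigma]
      refine ⟨(ht _).2 ⟨sw_mem hg1 (mem_Up.1 hp).1, ?_⟩, ?_⟩
      · show des lab (sw g p) = j + 1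
        rw [← card_DS, h4, Finset.card_insert_of_notMem h5, card_DS, hg2]
      · show p ∈ DS lab (sw g p)
        rw [h4]
        exact Finset.mem_insert_self _ _
    · rintro ⟨g, p⟩ - ⟨g', p'⟩ - hx
      simp only [Sigma.mk.injEq, heq_eq_eq] at hx
      obtain ⟨hx1, rfl⟩ := hx
      have := congrArg (fun g => sw g p) hx1
      simp only [sw_sw] at this
      rw [this]
  rw [h2] at h3
  rw [hws] at hV ⊢
  rw [hwt]
  have h4 := h1.trans h3
  have h5 : (s \ Vj Q lab j).card * (2 * (j + 1)) = (2 * (s \ Vj Q lab j).card) * (j + 1) := by ring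
  rw [h5] at h4
  have h6 := Nat.le_of_mul_le_mul_right h4 (Nat.succ_pos j)
  omega

end Pool.LH64
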