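import Pool.Agent.SC25.Om
import Pool.Agent.SC45.LD

set_option autoImplicit false

/-!
# LH64/Defs: small `j` for posets of height `≤ c n` (MP_dcdbc5_co), definitions

THEOREM (LH64/Main, `small_lin`). For every `A` there is `L`: `n = N + 1 ≥ L h`, `j ≤ A h`, `w_i ≤ w_j` for `i ≤ j` imply
`w_j ≤ w_(j+1)`.

PLAN. `(j + 1) w_(j+1) ≥ ∑_{des g = j} (N - 3 j - adj g)`, so it is enough that at most half of the words with `j`
descents are concatenations of at most `8 j + 2` chain blocks (`Vj`). UPPER bound: `#Vj ≤ Om(j/5) (1 + n/K)^(4 K)`,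
`K = 8 j + 2`. LOWER bound: if `Vj` is not empty, one of its words gives columns `fb` (chains); diagonal bands of
levels and columns give `Om(j) ≥ Om(j/5) (number of up-sets of the bands) ≥ Om(j/5) (1 + X)^(n / (2 X))`,
`X = 80 (80 h / K + 1)`.
-/

namespace Pool.LH64

open Pool.HB45 Pool.HM63 Pool.PH43 Pool.SC25 Pool.SC45

/-- position of a letter -/
def pos {N : ℕ} (g : Equiv.Perm (Fin (N + 1))) (x : Fin (N + 1)) : ℕ := (g.symm x).val

/-- number of descents before the letter `x` -/
def fd {N : ℕ} (lab : Fin (N + 1) → ℕ) (g : Equiv.Perm (Fin (N + 1))) (x : Fin (N + 1)) : ℕ :=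
  (Finset.univ.filter fun p : Fin N => p.val < pos g x ∧ lab (g p.succ) < lab (g p.castSucc)).card

/-- number of incomparable neighbour pairs before the letter `x`: the index of its chain block -/
noncomputable def fb {N : ℕ} (Q : Rel (N + 1)) (g : Equiv.Perm (Fin (N + 1))) (x : Fin (N + 1)) : ℕ := by
  classical
  exact (Finset.univ.filter fun p : Fin N => p.val < pos g x ∧ ¬ Q (g p.castSucc) (g p.succ)).card

/-- the words with `j` descents and few chain blocks -/
noncomputable def Vj {N : ℕ} (Q : Rel (N + 1)) (lab : Fin (N + 1) → ℕ) (j : ℕ) :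
    Finset (Equiv.Perm (Fin (N + 1))) := by
  classical
  exact (LE Q).filter fun g => des lab g = j ∧ N ≤ adj Q g + (8 * j + 1)

theorem mem_Vj {N : ℕ} {Q : Rel (N + 1)} {lab : Fin (N + 1) → ℕ} {j : ℕ}
    {g : Equiv.Perm (Fin (N + 1))} :
    g ∈ Vj Q lab j ↔ g ∈ LE Q ∧ des lab g = j ∧ N ≤ adj Q g + (8 * j + 1) := by
  classical
  simp [Vj]

/-- up-sets inside the fibres of `β` -/
noncomputable def TB {n : ℕ} (Q : Rel n) (β : Fin n → ℕ) : Finset (Finset (Fin n)) := by
  classical
  exact Finset.univ.filter fun U => ∀ a b, Q a b → β a = β b → a ∈ U → b ∈ U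

theorem mem_TB {n : ℕ} {Q : Rel n} {β : Fin n → ℕ} {U : Finset (Fin n)} :
    U ∈ TB Q β ↔ ∀ a b, Q a b → β a = β b → a ∈ U → b ∈ U := by
  classical
  simp [TB]

/-- box size -/
def XX (h j : ℕ) : ℕ := 80 * (80 * h / (8 * j + 2) + 1)

end Pool.LH64
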