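import Pool.Agent.LH64.Defs

set_option autoImplicit false

/-!
# LH64/IdlP: a lower bound for the product of the sizes
-/

namespace Pool.LH64

private lemma idl_log {X x : ℝ} (hX : 0 < X) (hx : 0 ≤ x) (hxX : x ≤ X) :
    x / X * Real.log (1 + X) ≤ Real.log (x + 1) := by
  have m1 : (1 : ℝ) ∈ Set.Ioi (0 : ℝ) := Set.mem_Ioi.2 one_pos
  have m2 : 1 + X ∈ Set.Ioi (0 : ℝ) := Set.mem_Ioi.2 (by linarith)
  have a1 : 0 ≤ 1 - x / X := by
    rw [sub_nonneg, div_le_one hX]
    exact hxX
  have a2 : 0 ≤ x / X := by positivity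
  have h := strictConcaveOn_log_Ioi.concaveOn.2 m1 m2 a1 a2 (by ring)
  simp only [smul_eq_mul, Real.log_one, mul_zero, zero_add, mul_one] at h
  have h2 : 1 - x / X + x / X * (1 + X) = x + 1 := by
    field_simp
    ring
  rwa [h2] at h

open Classical in
theorem prod_ge_of {n : ℕ} {ι : Type} (X : ℕ) (hX : 1 ≤ X) (R : Finset (Fin n)) (key : Fin n → ι)
    (hb : ∀ k, (R.filter fun x => key x = k).card ≤ X) :
    Real.exp ((R.card : ℝ) / X * Real.log (1 + X)) ≤
      ((∏ k ∈ R.image key, ((R.filter fun x => key x = k).card + 1) : ℕ) : ℝ) := by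
  have hX0 : (0 : ℝ) < X := by exact_mod_cast hX
  have h1 : ((R.card : ℝ) / X * Real.log (1 + X)) =
      ∑ k ∈ R.image key, (((R.filter fun x => key x = k).card : ℝ) / X * Real.log (1 + X)) := by
    rw [← Finset.sum_mul, ← Finset.sum_div]
    congr 2
    exact_mod_cast Finset.card_eq_sum_card_image key R
  rw [h1, Real.exp_sum]
  push_cast
  refine Finset.prod_le_prod (fun k _ => (Real.exp_pos _).le) fun k _ => ?_
  have h2 : (0 : ℝ) < ((R.filter fun x => key x = k).card : ℝ) + 1 := by positivity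
  rw [← Real.le_log_iff_exp_le h2]
  exact idl_log hX0 (by positivity) (by exact_mod_cast hb k)

end Pool.LH64
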