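import Pool.Agent.LH64.IdlA
import Pool.Agent.LH64.IdlP

set_option autoImplicit false

/-!
# LH64/Idl: many up-sets inside the bands (STUB)
-/

namespace Pool.LH64

open Pool.HB45 Pool.HM63 Pool.PH43 Pool.SC25 Pool.SC45

open Classical in
/-- PROOF. `rk x = #{z ∈ R : key z = key x, lab z < lab x}`. For `t` in `pi (R.image key) (range (#R_k + 1))` let
`U_t = {x : ∃ y ∈ R, (y = x ∨ Q y x) ∧ β y = β x ∧ t (key y) ≤ rk y}`. `U_t ∈ TB` by transitivity. For `x ∈ R`: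
`x ∈ U_t ↔ t (key x) ≤ rk x` (`hk` and `lab y < lab x`), and `rk` is a bijection of `R_k` onto `{0, …, #R_k - 1}`, so
`#(U_t ∩ R_k) = #R_k - t_k`: injective. -/
theorem card_TB_ge {n : ℕ} {ι : Type} {Q : Rel n} {lab : Fin n → ℕ} (hTr : Tr Q) (hn : Nat' Q lab)
    (β : Fin n → ℕ) (R : Finset (Fin n)) (key : Fin n → ι)
    (hk : ∀ a ∈ R, ∀ b ∈ R, Q a b → β a = β b → key a = key b) :
    ∏ k ∈ R.image key, ((R.filter fun x => key x = k).card + 1) ≤ (TB Q β).card :=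
  card_TB_geA hTr hn β R key hk

open Classical in
/-- PROOF. `log (1 + x) ≥ (x/X) log (1 + X)` for `0 ≤ x ≤ X` (concavity of `log`, `strictConcaveOn_log_Ioi`), and
`∑_k #R_k = #R`. -/
theorem prod_ge {n : ℕ} {ι : Type} (X : ℕ) (hX : 1 ≤ X) (R : Finset (Fin n)) (key : Fin n → ι)
    (hb : ∀ k, (R.filter fun x => key x = k).card ≤ X) :
    Real.exp ((R.card : ℝ) / X * Real.log (1 + X)) ≤
      ((∏ k ∈ R.image key, ((R.filter fun x => key x = k).card + 1) : ℕ) : ℝ) :=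
  prod_ge_of X hX R key hb

end Pool.LH64
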