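import Pool.Agent.LH64.Defs

set_option autoImplicit false

/-!
# LH64/IdlA: many up-sets inside the bands
-/

namespace Pool.LH64

open Pool.HB45 Pool.HM63 Pool.PH43 Pool.SC25 Pool.SC45

theorem card_rank_ge {α : Type} [DecidableEq α] (S : Finset α) (r : α → ℕ)
    (hinj : ∀ x ∈ S, ∀ y ∈ S, r x = r y → x = y) (hlt : ∀ x ∈ S, r x < S.card) (a : ℕ) :
    (S.filter fun x => a ≤ r x).card = S.card - a := by
  classical
  have hinj' : Set.InjOn r (S : Set α) := fun x hx y hy h => hinj x hx y hy h
  have h1 : S.image r = Finset.range S.card := by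
    refine Finset.eq_of_subset_of_card_le ?_ ?_
    · intro m hm
      obtain ⟨x, hx, rfl⟩ := Finset.mem_image.1 hm
      exact Finset.mem_range.2 (hlt x hx)
    · rw [Finset.card_range, Finset.card_image_of_injOn hinj']
  have h2 : (S.filter fun x => a ≤ r x).card = ((S.filter fun x => a ≤ r x).image r).card := by
    refine (Finset.card_image_of_injOn ?_).symm
    intro x hx y hy h
    rw [Finset.mem_coe, Finset.mem_filter] at hx hy
    exact hinj x hx.1 y hy.1 h
  have h3 : (S.filter fun x => a ≤ r x).image r = Finset.Ico a S.card := by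
    ext m
    rw [Finset.mem_image, Finset.mem_Ico]
    constructor
    · rintro ⟨x, hx, rfl⟩
      rw [Finset.mem_filter] at hx
      exact ⟨hx.2, hlt x hx.1⟩
    · rintro ⟨h4, h5⟩
      have h6 : m ∈ S.image r := by
        rw [h1]
        exact Finset.mem_range.2 h5
      obtain ⟨x, hx, rfl⟩ := Finset.mem_image.1 h6
      exact ⟨x, Finset.mem_filter.2 ⟨hx, h4⟩, rfl⟩
  rw [h2, h3, Nat.card_Ico]

open Classical in
theorem card_TB_geA {n : ℕ} {ι : Type} {Q : Rel n} {lab : Fin n → ℕ} (hTr : Tr Q) (hn : Nat' Q lab)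
    (β : Fin n → ℕ) (R : Finset (Fin n)) (key : Fin n → ι)
    (hk : ∀ a ∈ R, ∀ b ∈ R, Q a b → β a = β b → key a = key b) :
    ∏ k ∈ R.image key, ((R.filter fun x => key x = k).card + 1) ≤ (TB Q β).card := by
  let rk : Fin n → ℕ := fun x => (R.filter fun z => key z = key x ∧ lab z < lab x).card
  have hrk_lt : ∀ x ∈ R, ∀ y ∈ R, key x = key y → lab x < lab y → rk x < rk y := by
    intro x hx y hy hxy hl
    refine Finset.card_lt_card ?_
    rw [Finset.ssubset_iff_of_subset]
    · refine ⟨x, Finset.mem_filter.2 ⟨hx, hxy, hl⟩, fun h => ?_⟩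
      rw [Finset.mem_filter] at h
      exact lt_irrefl _ h.2.2
    · intro z hz
      rw [Finset.mem_filter] at hz ⊢
      exact ⟨hz.1, hz.2.1.trans hxy, hz.2.2.trans hl⟩
  have hrk_inj : ∀ x ∈ R, ∀ y ∈ R, key x = key y → rk x = rk y → x = y := by
    intro x hx y hy hxy h
    rcases lt_trichotomy (lab x) (lab y) with h1 | h1 | h1
    · have := hrk_lt x hx y hy hxy h1
      omega
    · exact hn.inj h1
    · have := hrk_lt y hy x hx hxy.symm h1
      omega
  have hrk_card : ∀ x ∈ R, rk x < (R.filter fun z => key z = key x).card := by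
    intro x hx
    refine Finset.card_lt_card ?_
    rw [Finset.ssubset_iff_of_subset]
    · refine ⟨x, Finset.mem_filter.2 ⟨hx, rfl⟩, fun h => ?_⟩
      rw [Finset.mem_filter] at h
      exact lt_irrefl _ h.2.2
    · intro z hz
      rw [Finset.mem_filter] at hz ⊢
      exact ⟨hz.1, hz.2.1⟩
  let U : (∀ k ∈ R.image key, ℕ) → Finset (Fin n) := fun t =>
    Finset.univ.filter fun x => ∃ y, ∃ hy : y ∈ R, (y = x ∨ Q y x) ∧ β y = β x ∧
      t (key y) (Finset.mem_image_of_mem key hy) ≤ rk y
  have hmemU : ∀ t x, x ∈ U t ↔ ∃ y, ∃ hy : y ∈ R, (y = x ∨ Q y x) ∧ β y = β x ∧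
      t (key y) (Finset.mem_image_of_mem key hy) ≤ rk y := by
    intro t x
    simp only [U, Finset.mem_filter, Finset.mem_univ, true_and]
  have hR : ∀ t (k : ι) (hkk : k ∈ R.image key) (x : Fin n), x ∈ R → key x = k →
      (x ∈ U t ↔ t k hkk ≤ rk x) := by
    intro t k hkk x hx hxk
    subst hxk
    rw [hmemU]
    constructor
    · rintro ⟨y, hy, h1, h2, h3⟩
      rcases h1 with rfl | h1
      · exact h3
      · have h4 := hk y hy x hx h1 h2
        have h5 := hrk_lt y hy x hx h4 (hn.mono _ _ h1)
        have h6 : ∀ (k' : ι) (hk' : k' ∈ R.image key), k' = key x → t k' hk' = t (key x) hkk := by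
          intro k' hk' he
          subst he
          rfl
        have h7 := h6 (key y) (Finset.mem_image_of_mem key hy) h4
        rw [h7] at h3
        omega
    · intro h1
      exact ⟨x, hx, Or.inl rfl, rfl, h1⟩
  have hcard := Finset.card_pi (R.image key)
    (fun k => Finset.range ((R.filter fun x => key x = k).card + 1))
  simp only [Finset.card_range] at hcard
  rw [← hcard]
  refine Finset.card_le_card_of_injOn U ?_ ?_
  · intro t _
    rw [Finset.mem_coe, mem_TB]
    intro a b hab hβ ha
    rw [hmemU] at ha ⊢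
    obtain ⟨y, hy, h1, h2, h3⟩ := ha
    refine ⟨y, hy, Or.inr ?_, h2.trans hβ, h3⟩
    rcases h1 with rfl | h1
    · exact hab
    · exact hTr _ _ _ h1 hab
  · intro t ht t' ht' h
    rw [Finset.mem_coe, Finset.mem_pi] at ht ht'
    funext k hkk
    have h1 : ∀ s : (∀ k ∈ R.image key, ℕ), (s k hkk ∈ Finset.range ((R.filter fun x => key x = k).card + 1)) →
        ((R.filter fun x => key x = k).filter fun x => x ∈ U s).card =
          (R.filter fun x => key x = k).card - s k hkk := by
      intro s _
      rw [← card_rank_ge (R.filter fun x => key x = k) rk ?_ ?_ (s k hkk)]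
      · congr 1
        refine Finset.filter_congr fun x hx => ?_
        rw [Finset.mem_filter] at hx
        exact hR s k hkk x hx.1 hx.2
      · intro x hx y hy hxy
        rw [Finset.mem_filter] at hx hy
        exact hrk_inj x hx.1 y hy.1 (hx.2.trans hy.2.symm) hxy
      · intro x hx
        rw [Finset.mem_filter] at hx
        have h2 := hrk_card x hx.1
        rwa [hx.2] at h2
    have h2 := h1 t (ht k hkk)
    have h3 := h1 t' (ht' k hkk)
    rw [h] at h2
    have h4 := Finset.mem_range.1 (ht k hkk)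
    have h5 := Finset.mem_range.1 (ht' k hkk)
    omega

end Pool.LH64
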